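import Mathlib

/-!
The hypotheses of the Galois criteria.
-/

set_option autoImplicit false

open Polynomial

namespace Pool.Agent.K9h16.GK

/-- Each pair of permutations of the roots of `P` and of the roots of `Q` is given by an element of
the Galois group of the splitting field of `P Q` over `k`: the Galois group is the product of the two
symmetric groups. -/
def FullProduct {k : Type} [Field k] (P Q : k[X]) : Prop :=
  ∀ (π : Equiv.Perm (P.rootSet (P * Q).SplittingField))
    (π' : Equiv.Perm (Q.rootSet (P * Q).SplittingField)),
    ∃ σ : (P * Q).SplittingField ≃ₐ[k] (P * Q).SplittingField,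
      (∀ θ : P.rootSet (P * Q).SplittingField, σ θ = (π θ : (P * Q).SplittingField)) ∧
      ∀ η : Q.rootSet (P * Q).SplittingField, σ η = (π' η : (P * Q).SplittingField)

/-- For some roots `θ`, `θ'` of `P` and `η`, `η'` of `Q` the product
`(θ - η) (θ' - η) (θ - η') (θ' - η')` is not a square in the splitting field of `P Q` over `k`. -/
def NonsquareMinor {k : Type} [Field k] (P Q : k[X]) : Prop :=
  ∃ θ θ' η η' : (P * Q).SplittingField, aeval θ P = 0 ∧ aeval θ' P = 0 ∧ aeval η Q = 0 ∧
    aeval η' Q = 0 ∧ ¬ IsSquare ((θ - η) * (θ' - η) * ((θ - η') * (θ' - η')))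

/-- For some roots `θ`, `θ'` of `P` the product `Q(θ) Q(θ')` is not a square in the splitting field of
`P` over `k`. -/
def NonsquareValues {k : Type} [Field k] (P Q : k[X]) : Prop :=
  ∃ θ θ' : P.SplittingField, aeval θ P = 0 ∧ aeval θ' P = 0 ∧
    ¬ IsSquare (aeval θ Q * aeval θ' Q)

open scoped Classical in
/-- Each system of EVEN permutations of the roots of the `P i` is given by an element of the Galois
group of the splitting field of the product of the `P i` over `k`: the Galois group contains the
product of the alternating groups. -/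
def ContainsAlternating {k : Type} [Field k] {n : ℕ} (P : Fin n → k[X]) : Prop :=
  ∀ π : (i : Fin n) → Equiv.Perm ((P i).rootSet (∏ i, P i).SplittingField),
    (∀ i, Equiv.Perm.sign (π i) = 1) →
    ∃ σ : (∏ i, P i).SplittingField ≃ₐ[k] (∏ i, P i).SplittingField,
      ∀ (i : Fin n) (θ : (P i).rootSet (∏ i, P i).SplittingField),
        σ θ = (π i θ : (∏ i, P i).SplittingField)

end Pool.Agent.K9h16.GK
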