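import Pool.Agent.K9h16.PT.Tra

/-!
Automorphisms of splitting fields and of larger fields; square roots.
-/

set_option autoImplicit false
set_option linter.all false

open Polynomial
open scoped Classical

namespace Pool.Agent.K9h16.GK

open Pool.Agent.K9h16.PT

section ext

variable {k E Ω : Type} [Field k] [Field E] [Field Ω] [Algebra k E] [Algebra k Ω] [Algebra E Ω]
  [IsScalarTower k E Ω]

theorem up [Normal k Ω] (σ : E ≃ₐ[k] E) :
    ∃ τ : Ω ≃ₐ[k] Ω, ∀ x : E, τ (algebraMap E Ω x) = algebraMap E Ω (σ x) :=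
  ⟨σ.liftNormal Ω, fun x => σ.liftNormal_commutes Ω x⟩

theorem down [Normal k E] (τ : Ω ≃ₐ[k] Ω) :
    ∃ σ : E ≃ₐ[k] E, ∀ x : E, algebraMap E Ω (σ x) = τ (algebraMap E Ω x) :=
  ⟨τ.restrictNormal E, fun x => τ.restrictNormal_commutes E x⟩

/-- The roots of a polynomial which splits. -/
theorem root_up {P : k[X]} (hs : (P.map (algebraMap k E)).Splits) (hP : P ≠ 0) {y : Ω}
    (hy : aeval y P = 0) : ∃ x : P.rootSet E, algebraMap E Ω x = y := by
  have h1 : y ∈ P.rootSet Ω := mem_rootSet.2 ⟨hP, hy⟩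
  rw [← hs.image_rootSet_algebraMap (B := Ω)] at h1
  obtain ⟨x, hx, rfl⟩ := h1
  exact ⟨⟨x, hx⟩, rfl⟩

theorem rs_equiv {P : k[X]} (hs : (P.map (algebraMap k E)).Splits) (hP : P ≠ 0) :
    ∃ e : P.rootSet E ≃ P.rootSet Ω, ∀ i, ((e i : P.rootSet Ω) : Ω) = algebraMap E Ω i := by
  refine ⟨Equiv.ofBijective (fun i => ⟨algebraMap E Ω i, mem_rootSet.2 ⟨hP, ?_⟩⟩) ⟨?_, ?_⟩,
    fun i => rfl⟩
  · rw [aeval_algebraMap_apply, aeval_eq_zero_of_mem_rootSet i.2, map_zero]
  · intro i j hij
    exact Subtype.ext ((algebraMap E Ω).injective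
      (congrArg (fun z : P.rootSet Ω => (z : Ω)) hij))
  · intro j
    obtain ⟨x, hx⟩ := root_up (Ω := Ω) hs hP (aeval_eq_zero_of_mem_rootSet j.2)
    exact ⟨x, Subtype.ext hx⟩

omit [Field k] [Algebra k E] [Algebra k Ω] [IsScalarTower k E Ω] in
/-- The sign of a square root can be changed. -/
theorem exists_neg [Normal E Ω] {M : E} (hM : ¬ IsSquare M) {r : Ω}
    (hr : r ^ 2 = algebraMap E Ω M) : ∃ τ : Ω ≃ₐ[E] Ω, τ r = -r := by
  have hirr : Irreducible (X ^ 2 - C M : E[X]) := by
    apply X_pow_sub_C_irreducible_of_prime Nat.prime_two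
    intro b hb
    exact hM ⟨b, by rw [← hb, pow_two]⟩
  have hmon : (X ^ 2 - C M : E[X]).Monic := monic_X_pow_sub_C M two_ne_zero
  have e1 : (X ^ 2 - C M : E[X]) = minpoly E (-r) := by
    refine minpoly.eq_of_irreducible_of_monic hirr ?_ hmon
    rw [map_sub, map_pow, aeval_X, aeval_C, neg_sq, hr, sub_self]
  have e2 : (X ^ 2 - C M : E[X]) = minpoly E r := by
    refine minpoly.eq_of_irreducible_of_monic hirr ?_ hmon
    rw [map_sub, map_pow, aeval_X, aeval_C, hr, sub_self]
  have h3 : IsConjRoot E (-r) r := by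
    show minpoly E (-r) = minpoly E r
    rw [← e1, ← e2]
  obtain ⟨τ, hτ⟩ := isConjRoot_iff_exists_algEquiv.1 h3
  exact ⟨τ, hτ⟩

end ext

section emb

variable {k : Type} [Field k]

/-- The splitting field is contained in each field in which the polynomial splits. -/
theorem exists_alg {Ω : Type} [Field Ω] [Algebra k Ω] {f : k[X]}
    (hs : (f.map (algebraMap k Ω)).Splits) :
    ∃ _ : Algebra f.SplittingField Ω, IsScalarTower k f.SplittingField Ω := by
  let φ : f.SplittingField →ₐ[k] Ω := SplittingField.lift f hs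
  letI : Algebra f.SplittingField Ω := φ.toRingHom.toAlgebra
  exact ⟨inferInstance, IsScalarTower.of_algebraMap_eq' φ.comp_algebraMap.symm⟩

theorem sep_mul {P Q : k[X]} (hP : P.Separable) (hQ : Q.Separable) (h : IsCoprime P Q) :
    (P * Q).Separable := hP.mul hQ h

theorem gal_split {f : k[X]} (hf : f.Separable) : IsGalois k f.SplittingField :=
  IsGalois.of_separable_splitting_field hf

theorem spl_left {P Q : k[X]} (h : P * Q ≠ 0) :
    (P.map (algebraMap k (P * Q).SplittingField)).Splits := by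
  have h1 := SplittingField.splits (P * Q)
  rw [Polynomial.map_mul] at h1
  exact (splits_mul_iff (Polynomial.map_ne_zero (left_ne_zero_of_mul h))
    (Polynomial.map_ne_zero (right_ne_zero_of_mul h))).1 h1 |>.1

theorem spl_right {P Q : k[X]} (h : P * Q ≠ 0) :
    (Q.map (algebraMap k (P * Q).SplittingField)).Splits := by
  have h1 := SplittingField.splits (P * Q)
  rw [Polynomial.map_mul] at h1
  exact (splits_mul_iff (Polynomial.map_ne_zero (left_ne_zero_of_mul h))
    (Polynomial.map_ne_zero (right_ne_zero_of_mul h))).1 h1 |>.2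

theorem spl_of {P Q : k[X]} {Ω : Type} [Field Ω] [Algebra k Ω]
    (hP : (P.map (algebraMap k Ω)).Splits) (hQ : (Q.map (algebraMap k Ω)).Splits) :
    ((P * Q).map (algebraMap k Ω)).Splits := by
  rw [Polynomial.map_mul]
  exact hP.mul hQ

end emb

end Pool.Agent.K9h16.GK
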