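import Pool.Agent.K9h16.GK.Thr

/-!
The Galois criterion for curves with full level two.
-/

set_option autoImplicit false
set_option linter.all false

open Polynomial
open scoped Classical

namespace Pool.Agent.K9h16.GK

open Pool.Agent.TH115.GD Pool.Agent.K9h16.PT Pool.Agent.X243.Gen Pool.Agent.X243.Tate
  Pool.Agent.X243.Sol

section lvl

theorem common_root {k : Type} [Field k] {P Q : k[X]} (hP0 : P ≠ 0) {Ω : Type} [Field Ω]
    [Algebra k Ω] (sP : (P.map (algebraMap k Ω)).Splits) (hcon : ¬ IsCoprime P Q) :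
    ∃ x : Ω, aeval x P = 0 ∧ aeval x Q = 0 := by
  obtain ⟨g, hg⟩ : ∃ g, g = EuclideanDomain.gcd P Q := ⟨_, rfl⟩
  have hu : ¬ IsUnit g := by
    rw [hg, EuclideanDomain.gcd_isUnit_iff]
    exact hcon
  have hgP : g ∣ P := by rw [hg]; exact EuclideanDomain.gcd_dvd_left P Q
  have hgQ : g ∣ Q := by rw [hg]; exact EuclideanDomain.gcd_dvd_right P Q
  have hg0 : g ≠ 0 := ne_zero_of_dvd_ne_zero hP0 hgP
  have hs : (g.map (algebraMap k Ω)).Splits :=
    sP.of_dvd (Polynomial.map_ne_zero hP0) (Polynomial.map_dvd _ hgP)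
  have hd : (g.map (algebraMap k Ω)).degree ≠ 0 := by
    rw [degree_map]
    intro h
    exact hu (isUnit_iff_degree_eq_zero.2 h)
  obtain ⟨x, hx⟩ := hs.exists_eval_eq_zero hd
  rw [eval_map_algebraMap] at hx
  have key : ∀ F : k[X], g ∣ F → aeval x F = 0 := by
    rintro _ ⟨c, rfl⟩
    rw [map_mul, hx, zero_mul]
  exact ⟨x, key P hgP, key Q hgQ⟩

variable {k : Type} [Field k] {a b : k[X]}

theorem sgn_of {Ω : Type} [Field Ω] [Algebra k Ω] [IsSepClosed Ω] [Normal k Ω]
    (h2 : (2 : Ω) ≠ 0) (ha : a ≠ 0) (sa : (a.map (algebraMap k Ω)).Splits)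
    (hv : NonsquareValues a b) :
    ∃ (s : Ω ≃ₐ[k] Ω) (θ₁ θ₂ : Ω), aeval θ₁ a = 0 ∧ aeval θ₂ a = 0 ∧
      (∀ θ : Ω, aeval θ a = 0 → s θ = θ) ∧ sg s (aeval θ₁ b) = 0 ∧ sg s (aeval θ₂ b) = 1 := by
  obtain ⟨_, _⟩ := exists_alg sa
  obtain ⟨θ, θ', r1, r2, hns⟩ := hv
  obtain ⟨M, hM⟩ : ∃ M : a.SplittingField, M = aeval θ b * aeval θ' b := ⟨_, rfl⟩
  rw [← hM] at hns
  have hM0 : M ≠ 0 := fun h => hns ⟨0, by rw [h, mul_zero]⟩
  have hb1 : aeval θ b ≠ 0 := fun h => hM0 (by rw [hM, h, zero_mul])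
  have hb2 : aeval θ' b ≠ 0 := fun h => hM0 (by rw [hM, h, mul_zero])
  haveI : Normal a.SplittingField Ω := Normal.tower_top_of_normal k _ Ω
  obtain ⟨r, hr⟩ : ∃ r : Ω, r ^ 2 = algebraMap a.SplittingField Ω M := ⟨_, rt_sq h2 _⟩
  obtain ⟨τ, hτ⟩ := exists_neg hns hr
  obtain ⟨s, hs⟩ : ∃ s : Ω ≃ₐ[k] Ω, s = τ.restrictScalars k := ⟨_, rfl⟩
  have hsa : ∀ x : a.SplittingField, s (algebraMap _ Ω x) = algebraMap _ Ω x := fun x => by
    rw [hs]
    exact τ.commutes x
  have hev : ∀ x : a.SplittingField, aeval (algebraMap a.SplittingField Ω x) b =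
      algebraMap a.SplittingField Ω (aeval x b) := fun x => aeval_algebraMap_apply Ω x b
  have hev' : ∀ x : a.SplittingField, aeval x a = 0 →
      aeval (algebraMap a.SplittingField Ω x) a = 0 := fun x hx => by
    rw [aeval_algebraMap_apply, hx, map_zero]
  have inj := (algebraMap a.SplittingField Ω).injective
  have n1 : aeval (algebraMap a.SplittingField Ω θ) b ≠ 0 := by
    rw [hev]
    exact (_root_.map_ne_zero _).2 hb1
  have n2 : aeval (algebraMap a.SplittingField Ω θ') b ≠ 0 := by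
    rw [hev]
    exact (_root_.map_ne_zero _).2 hb2
  have hsum : sg s (aeval (algebraMap a.SplittingField Ω θ) b) +
      sg s (aeval (algebraMap a.SplittingField Ω θ') b) = 1 := by
    rw [← sg_mul h2 n1 n2 (by rw [hev, hsa]) (by rw [hev, hsa])]
    refine sg_unique h2 (mul_ne_zero n1 n2) (r := r) ?_ ?_
    · rw [hr, hM, map_mul, hev, hev]
    · rw [pm_one, neg_one_mul, hs]
      exact hτ
  have hfix : ∀ x : Ω, aeval x a = 0 → s x = x := by
    intro x hx
    obtain ⟨z, rfl⟩ := root_up (Ω := Ω) (SplittingField.splits a) ha hx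
    exact hsa _
  have hcase : ∀ x y : ZMod 2, x + y = 1 → (x = 0 ∧ y = 1) ∨ (y = 0 ∧ x = 1) := by decide
  rcases hcase _ _ hsum with ⟨h3, h4⟩ | ⟨h3, h4⟩
  · exact ⟨s, _, _, hev' _ r1, hev' _ r2, hfix, h3, h4⟩
  · exact ⟨s, _, _, hev' _ r2, hev' _ r1, hfix, h3, h4⟩

/-- The hypotheses. -/
structure C3 (a b : k[X]) : Prop where
  h2 : (2 : k) ≠ 0
  sa : a.Separable
  sb : b.Separable
  sd : (a - b).Separable
  na : 5 ≤ a.natDegree
  nb : 5 ≤ b.natDegree
  nd : 5 ≤ (a - b).natDegree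
  alt : ContainsAlternating ![a, b, a - b]
  val : NonsquareValues a b
  mf : NonsquareMinor a b
  mg : NonsquareMinor a (a - b)

theorem C3.h0 (h : C3 a b) : ∏ i, (![a, b, a - b] : Fin 3 → k[X]) i ≠ 0 := by
  rw [Finset.prod_ne_zero_iff]
  intro i _
  fin_cases i
  · exact h.sa.ne_zero
  · exact h.sb.ne_zero
  · exact h.sd.ne_zero

theorem C3.spl (h : C3 a b) {Ω : Type} [Field Ω] [Algebra k Ω] [IsSepClosed Ω] (i : Fin 3) :
    (((![a, b, a - b] : Fin 3 → k[X]) i).map (algebraMap k Ω)).Splits := by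
  fin_cases i
  · exact IsSepClosed.splits_of_separable _ h.sa.map
  · exact IsSepClosed.splits_of_separable _ h.sb.map
  · exact IsSepClosed.splits_of_separable _ h.sd.map

theorem C3.cop (h : C3 a b) : IsCoprime a b := by
  by_contra hcon
  obtain ⟨x, x1, x2⟩ := common_root (Ω := SeparableClosure k) h.sa.ne_zero (h.spl 0) hcon
  obtain ⟨z, hz⟩ : ∃ z : a.rootSet (SeparableClosure k), (z : SeparableClosure k) = x :=
    ⟨⟨x, mem_rootSet.2 ⟨h.sa.ne_zero, x1⟩⟩, rfl⟩
  obtain ⟨z1, z2, z3, r1, r2, r3, n12, n13, n23, m1, -, m2, -, m3, -⟩ :=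
    Pool.Agent.K9h16.QT.five_of (Ω := SeparableClosure k) h.sa h.na x x
  have mk : ∀ y : SeparableClosure k, aeval y a = 0 → y ∈ a.rootSet (SeparableClosure k) :=
    fun y hy => mem_rootSet.2 ⟨h.sa.ne_zero, hy⟩
  haveI : Normal k (SeparableClosure k) := IsGalois.to_normal
  obtain ⟨u, u1, u2⟩ := acts_dt (Ω := SeparableClosure k) h.alt h.h0 h.spl (0 : Fin 3) (x := z)
    (y := ⟨z1, mk _ r1⟩) (z := ⟨z2, mk _ r2⟩) (w := ⟨z3, mk _ r3⟩)
    (fun e => m1 (by rw [← hz, e])) (fun e => n23 (congrArg Subtype.val e))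
  have h3 := u1 z
  have h4 := u2 1 (by decide) x x2
  rw [dt_1 (fun e => m2 (by rw [← hz, e])) (fun e => m3 (by rw [← hz, e])), hz, h4] at h3
  exact m1 h3.symm

theorem C3.gh (h : C3 a b) {Ω : Type} [Field Ω] [Algebra k Ω] [IsSepClosure k Ω] :
    GH Ω a b := by
  haveI : IsSepClosed Ω := IsSepClosure.sep_closed k
  haveI : IsGalois k Ω := IsSepClosure.isGalois
  haveI : Normal k Ω := IsGalois.to_normal
  have h2' : (2 : Ω) ≠ 0 := by
    rw [← map_ofNat (algebraMap k Ω) 2]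
    exact (map_ne_zero_iff _ (algebraMap k Ω).injective).2 h.h2
  have hco := h.cop
  refine ⟨fun x y z w h1 _ _ _ _ h6 => ?_, fun x y z w h1 _ _ _ _ h6 => ?_,
    fun x y z w h1 _ _ _ _ h6 => ?_, sgn_of h2' h.sa.ne_zero (h.spl 0) h.val,
    min_acts h2' h.sa h.sb (fun _ _ => ne_ab hco) (minG_of (mul_ne_zero h.sa.ne_zero h.sb.ne_zero) h.mf),
    min_acts h2' h.sa h.sd (fun _ _ => ne_ad hco)
      (minG_of (mul_ne_zero h.sa.ne_zero h.sd.ne_zero) h.mg)⟩
  · obtain ⟨u, u1, u2⟩ := acts_dt (Ω := Ω) h.alt h.h0 h.spl (0 : Fin 3) h1 h6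
    exact ⟨u, u1, u2 1 (by decide), u2 2 (by decide)⟩
  · obtain ⟨u, u1, u2⟩ := acts_dt (Ω := Ω) h.alt h.h0 h.spl (1 : Fin 3) h1 h6
    exact ⟨u, u1, u2 0 (by decide), u2 2 (by decide)⟩
  · obtain ⟨u, u1, u2⟩ := acts_dt (Ω := Ω) h.alt h.h0 h.spl (2 : Fin 3) h1 h6
    exact ⟨u, u1, u2 0 (by decide), u2 1 (by decide)⟩

/-- **The criterion.** -/
theorem C3.pot (h : C3 a b)
    {L L' K F : Type} [Field L] [Field L'] [Algebra k L] [Algebra L L']
    [Algebra k L'] [IsScalarTower k L L'] [FiniteDimensional k L] [Algebra.IsSeparable k L]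
    [Field K] [Algebra L[X] K] [Field F] [Algebra L'[X] F] [IsFractionRing L'[X] F] [Algebra K F]
    (hT : IsTower L L' K F) {δ : L} (hδ : δ ≠ 0) :
    TateAtTwo (F := F) L' (crv (algebraMap L[X] K (C δ * a.map (algebraMap k L)))
      (algebraMap L[X] K (C δ * b.map (algebraMap k L)))) ∧
    GeneratedBy (F := F) L' (crv (algebraMap L[X] K (C δ * a.map (algebraMap k L)))
      (algebraMap L[X] K (C δ * b.map (algebraMap k L)))) 0 := by
  haveI := hT.sep
  haveI : IsSepClosed L' := IsSepClosure.sep_closed L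
  haveI : Algebra.IsSeparable L L' := IsSepClosure.separable
  haveI : Algebra.IsSeparable k L' := Algebra.IsSeparable.trans k L L'
  haveI : IsSepClosure k L' := ⟨inferInstance, inferInstance⟩
  have h2 := h.h2
  have h2' : (2 : L') ≠ 0 := by
    rw [← map_ofNat (algebraMap k L') 2]
    exact (map_ne_zero_iff _ (algebraMap k L').injective).2 h2
  have hco := h.cop
  have sa := h.sa
  have sb := h.sb
  have sd := h.sd
  have ta : (a.map (algebraMap k L')).Splits := IsSepClosed.splits_of_separable _ sa.map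
  have tb : (b.map (algebraMap k L')).Splits := IsSepClosed.splits_of_separable _ sb.map
  have td : ((a - b).map (algebraMap k L')).Splits := IsSepClosed.splits_of_separable _ sd.map
  have hG : GH L' a b := h.gh
  obtain ⟨T, hT'⟩ : ∃ T : Set L', T = a.rootSet L' ∪ b.rootSet L' ∪ (a - b).rootSet L' :=
    ⟨_, rfl⟩
  obtain ⟨k1, hk⟩ : ∃ k1 : IntermediateField k L', k1 = IntermediateField.adjoin k T := ⟨_, rfl⟩
  have hsub : ∀ x ∈ T, x ∈ k1 := by
    rw [hk]
    exact fun x hx => IntermediateField.subset_adjoin k T hx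
  have ra : ∀ θ : L', aeval θ a = 0 → θ ∈ k1 := fun θ h => hsub θ (by
    rw [hT']; exact Or.inl (Or.inl ((mem_rs sa.ne_zero).2 h)))
  have rb : ∀ θ : L', aeval θ b = 0 → θ ∈ k1 := fun θ h => hsub θ (by
    rw [hT']; exact Or.inl (Or.inr ((mem_rs sb.ne_zero).2 h)))
  have rd : ∀ θ : L', aeval θ (a - b) = 0 → θ ∈ k1 := fun θ h => hsub θ (by
    rw [hT']; exact Or.inr ((mem_rs sd.ne_zero).2 h))
  have hk1 : ∀ w : L' ≃ₐ[k] L', W0 a b w → ∀ x : k1, w (x : L') = x := by
    intro w hw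
    have h1 : ∀ x ∈ k1, w x = x := by
      intro x hx
      rw [hk] at hx
      induction hx using IntermediateField.adjoin_induction with
      | mem y hy =>
        rw [hT'] at hy
        rcases hy with (hy | hy) | hy
        · exact hw.fa y ((mem_rs sa.ne_zero).1 hy)
        · exact hw.fb y ((mem_rs sb.ne_zero).1 hy)
        · exact hw.fd y ((mem_rs sd.ne_zero).1 hy)
      | algebraMap r => exact w.commutes r
      | add y z _ _ h1 h2 => rw [map_add, h1, h2]
      | inv y _ h1 => rw [map_inv₀, h1]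
      | mul y z _ _ h1 h2 => rw [map_mul, h1, h2]
    exact fun x => h1 x x.2
  have hca : 5 ≤ Nat.card (a.rootSet L') := by
    rw [Nat.card_eq_fintype_card, card_rootSet_eq_natDegree sa ta]
    exact h.na
  have hcb : 5 ≤ Nat.card (b.rootSet L') := by
    rw [Nat.card_eq_fintype_card, card_rootSet_eq_natDegree sb tb]
    exact h.nb
  have hcd : 5 ≤ Nat.card ((a - b).rootSet L') := by
    rw [Nat.card_eq_fintype_card, card_rootSet_eq_natDegree sd td]
    exact h.nd
  have hSB : SB (a.map (algebraMap k k1)) (b.map (algebraMap k k1)) := by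
    refine ⟨?_, ?_, ?_, sa.map, sb.map, ?_, hco.map (mapRingHom (algebraMap k k1)), ?_, ?_⟩
    · exact IntermediateField.splits_of_splits (F := k1) ta
        (fun θ hθ => ra θ ((mem_rs sa.ne_zero).1 hθ))
    · exact IntermediateField.splits_of_splits (F := k1) tb
        (fun θ hθ => rb θ ((mem_rs sb.ne_zero).1 hθ))
    · rw [← Polynomial.map_sub]
      exact IntermediateField.splits_of_splits (F := k1) td
        (fun θ hθ => rd θ ((mem_rs sd.ne_zero).1 hθ))
    · rw [← Polynomial.map_sub]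
      exact sd.map
    · rw [natDegree_map]
      have := h.na
      omega
    · rw [natDegree_map]
      have := h.nb
      omega
  exact fin_main hT h2 k1 hSB (fun δ' hδ' =>
    card_tri h2' hco sa sb sd ta tb td k1 ra rb rd hk1 hG hca hcb hcd hδ') hδ

end lvl

end Pool.Agent.K9h16.GK
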