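import Pool.Agent.K9h16.GK.TwoC
import Pool.Agent.K9h16.BT.Cov

/-!
The criterion for the pullbacks.
-/

set_option autoImplicit false
set_option linter.all false

open Polynomial
open scoped Classical

namespace Pool.Agent.K9h16.GK

open Pool.Agent.K9h16.PT Pool.Agent.K9h16.QT Pool.Agent.X243.Gen Pool.Agent.X243.Tate
  Pool.Agent.X243.Sol Pool.Agent.K9h16.BT

section one

variable {k : Type} [Field k] {P Q : k[X]}

theorem spl_unit {E : Type} [Field E] [Algebra k E] {u : k} (hu : u ≠ 0)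
    (h : (P.map (algebraMap k E)).Splits) : ((C u * P).map (algebraMap k E)).Splits := by
  rw [Polynomial.map_mul, map_C]
  exact (Splits.C _).mul h

theorem pairG_unit {u v : k} (hu : u ≠ 0) (hv : v ≠ 0) (hQ : Q ≠ 0)
    (h : PairG (C u * P) (C v * Q)) : PairG P Q := by
  intro E _ _ _ _ hsP hsQ
  obtain ⟨σ, s1, x, y, hxy, hσ⟩ := h E (spl_unit hu hsP) (spl_unit hv hsQ)
  have m1 : ∀ z : E, z ∈ (C v * Q).rootSet E ↔ z ∈ Q.rootSet E := by
    intro z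
    rw [mem_rootSet, mem_rootSet, aeval_unit hv]
    exact ⟨fun h => ⟨hQ, h.2⟩, fun h => ⟨mul_ne_zero (C_ne_zero.2 hv) hQ, h.2⟩⟩
  have hact : ∀ i : (C v * Q).rootSet E, σ (i : E) = (sw x y i : (C v * Q).rootSet E) := by
    intro i
    rw [sw_eq, ← hσ]
    rfl
  refine ⟨σ, fun θ hθ => s1 θ ((aeval_unit hu P θ).2 hθ), ⟨x, (m1 _).1 x.2⟩, ⟨y, (m1 _).1 y.2⟩,
    fun e => hxy (Subtype.ext (congrArg (fun z : Q.rootSet E => (z : E)) e)), ?_⟩
  rw [← sw_eq]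
  refine Equiv.ext fun i => Subtype.ext ?_
  obtain ⟨j, hj⟩ : ∃ j : (C v * Q).rootSet E, (j : E) = i := ⟨⟨i, (m1 _).2 i.2⟩, rfl⟩
  have h3 : ((MulAction.toPermHom (E ≃ₐ[k] E) (Q.rootSet E) σ i : Q.rootSet E) : E) =
      σ (i : E) := rfl
  rw [h3, ← hj, hact]
  by_cases e1 : j = x
  · have e2 : i = ⟨x, (m1 _).1 x.2⟩ := Subtype.ext (by rw [← hj, e1])
    rw [e1, e2, sw_apply, if_pos rfl, sw_apply, if_pos rfl]
  · by_cases e2 : j = y
    · have e3 : i = ⟨y, (m1 _).1 y.2⟩ := Subtype.ext (by rw [← hj, e2])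
      have n1 : (⟨y, (m1 _).1 y.2⟩ : Q.rootSet E) ≠ ⟨x, (m1 _).1 x.2⟩ := by
        intro e
        have e' : (y : E) = x := congrArg (fun z : Q.rootSet E => (z : E)) e
        exact hxy (Subtype.ext e'.symm)
      rw [e2, e3, sw_apply, if_neg (Ne.symm hxy), if_pos rfl, sw_apply, if_neg n1, if_pos rfl]
    · have n1 : i ≠ ⟨x, (m1 _).1 x.2⟩ := fun e => e1 (Subtype.ext (by rw [hj, e]))
      have n2 : i ≠ ⟨y, (m1 _).1 y.2⟩ := fun e => e2 (Subtype.ext (by rw [hj, e]))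
      rw [sw_apply, if_neg e1, if_neg e2, sw_apply, if_neg n1, if_neg n2, hj]

theorem minG_unit {u v : k} (hu : u ≠ 0) (hv : v ≠ 0)
    (h : MinG (C u * P) (C v * Q)) : MinG P Q := by
  intro E _ _ _ _ hsP hsQ
  obtain ⟨σ, s1, s2, θ₁, θ₂, η₁, η₂, r1, r2, r3, r4, h5⟩ := h E (spl_unit hu hsP) (spl_unit hv hsQ)
  exact ⟨σ, fun θ hθ => s1 θ ((aeval_unit hu P θ).2 hθ), fun θ hθ => s2 θ ((aeval_unit hv Q θ).2 hθ),
    θ₁, θ₂, η₁, η₂, (aeval_unit hu P _).1 r1, (aeval_unit hu P _).1 r2, (aeval_unit hv Q _).1 r3,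
    (aeval_unit hv Q _).1 r4, h5⟩

/-- A separable polynomial with the full group is irreducible. -/
theorem irr_of (sP : P.Separable) (h1 : 1 ≤ P.natDegree) (f : FullG P) : Irreducible P := by
  have hP := sP.ne_zero
  refine ⟨fun hu => ?_, fun A B hAB => ?_⟩
  · have := natDegree_eq_zero_of_isUnit hu
    omega
  · by_contra hcon
    push Not at hcon
    obtain ⟨hA, hB⟩ := hcon
    haveI : IsGalois k P.SplittingField := gal_split sP
    have hA0 : A ≠ 0 := by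
      rintro rfl
      rw [zero_mul] at hAB
      exact hP hAB
    have hB0 : B ≠ 0 := by
      rintro rfl
      rw [mul_zero] at hAB
      exact hP hAB
    have hdA : A ∣ P := ⟨B, hAB⟩
    have hdB : B ∣ P := ⟨A, by rw [hAB, mul_comm]⟩
    have root : ∀ D : k[X], D ∣ P → ¬ IsUnit D → ∃ x : P.SplittingField, aeval x D = 0 := by
      intro D hD hDu
      have hD0 : D ≠ 0 := ne_zero_of_dvd_ne_zero hP hD
      have hs : (D.map (algebraMap k P.SplittingField)).Splits :=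
        (SplittingField.splits P).of_dvd (Polynomial.map_ne_zero hP) (Polynomial.map_dvd _ hD)
      have hd : (D.map (algebraMap k P.SplittingField)).degree ≠ 0 := by
        rw [degree_map]
        intro h
        exact hDu (isUnit_iff_degree_eq_zero.2 h)
      obtain ⟨x, hx⟩ := hs.exists_eval_eq_zero hd
      rw [eval_map_algebraMap] at hx
      exact ⟨x, hx⟩
    obtain ⟨x, hx⟩ := root A hdA hA
    obtain ⟨y, hy⟩ := root B hdB hB
    have key : ∀ D : k[X], D ∣ P → ∀ z : P.SplittingField, aeval z D = 0 →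
        z ∈ P.rootSet P.SplittingField := by
      rintro D ⟨c, rfl⟩ z hz
      exact mem_rootSet.2 ⟨hP, by rw [map_mul, hz, zero_mul]⟩
    obtain ⟨σ, hσ⟩ := f P.SplittingField (SplittingField.splits P)
      (sw ⟨x, key A hdA x hx⟩ ⟨y, key B hdB y hy⟩)
    have h3 : σ x = y := by
      have h4 : ((MulAction.toPermHom (P.SplittingField ≃ₐ[k] P.SplittingField)
          (P.rootSet P.SplittingField) σ ⟨x, key A hdA x hx⟩ : P.rootSet P.SplittingField) :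
          P.SplittingField) = σ x := rfl
      rw [← h4, hσ, sw_apply, if_pos rfl]
    have h5 : aeval y A = 0 := by
      rw [← h3]
      have h6 : aeval (σ x) A = σ (aeval x A) := by
        rw [← AlgEquiv.coe_algHom σ, aeval_algHom_apply]
      rw [h6, hx, map_zero]
    rw [hAB] at sP
    exact cop_ne sP.isCoprime h5 hy

end one

section crit

variable {k : Type} [Field k] {n : ℕ} {q r a b : k[X]}

/-- From the conditions on the Galois groups. -/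
theorem bc_of_crit (h2 : (2 : k) ≠ 0) (n5 : 5 ≤ n) (odd : ¬ 2 ∣ n)
    (da : a.natDegree ≤ 2) (db : b.natDegree = 4) (dd : (a ^ 2 - 4 * b).natDegree = 4)
    (sb : b.Separable) (sd : (a ^ 2 - 4 * b).Separable) (bd : IsCoprime b (a ^ 2 - 4 * b))
    (tb : b.Splits) (td : (a ^ 2 - 4 * b).Splits) (cop : IsCoprime q r) (dq : q.natDegree = n)
    (dr : r.natDegree ≤ n)
    (hsep : ∀ ξ, b.IsRoot ξ ∨ (a ^ 2 - 4 * b).IsRoot ξ →
      (fm q r ξ).Separable ∧ (fm q r ξ).natDegree = n)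
    (hgal : ∀ ξ ξ', b.IsRoot ξ ∨ (a ^ 2 - 4 * b).IsRoot ξ →
      b.IsRoot ξ' ∨ (a ^ 2 - 4 * b).IsRoot ξ' → ξ ≠ ξ' → FullProduct (fm q r ξ) (fm q r ξ'))
    (hmin : ∀ ξ η, b.IsRoot ξ → (a ^ 2 - 4 * b).IsRoot η →
      NonsquareMinor (fm q r ξ) (fm q r η)) : BC n q r a b := by
  have hne : ∀ ξ ξ', b.IsRoot ξ ∨ (a ^ 2 - 4 * b).IsRoot ξ →
      b.IsRoot ξ' ∨ (a ^ 2 - 4 * b).IsRoot ξ' → fm q r ξ * fm q r ξ' ≠ 0 := fun ξ ξ' h h' =>
    mul_ne_zero (hsep ξ h).1.ne_zero (hsep ξ' h').1.ne_zero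
  have other : ∀ ξ, b.IsRoot ξ ∨ (a ^ 2 - 4 * b).IsRoot ξ →
      ∃ ξ', (b.IsRoot ξ' ∨ (a ^ 2 - 4 * b).IsRoot ξ') ∧ ξ ≠ ξ' := by
    have hroot : ∀ D : k[X], D.Splits → D.natDegree = 4 → ∃ x, D.IsRoot x := by
      intro D hD h4
      have hd : D.degree ≠ 0 := by
        intro h
        have := natDegree_eq_zero_iff_degree_le_zero.2 h.le
        omega
      obtain ⟨x, hx⟩ := hD.exists_eval_eq_zero hd
      exact ⟨x, hx⟩
    obtain ⟨x, hx⟩ := hroot b tb db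
    obtain ⟨y, hy⟩ := hroot _ td dd
    have hxy : x ≠ y := by
      rintro rfl
      obtain ⟨u, v, huv⟩ := bd
      have := congrArg (eval x) huv
      rw [eval_add, eval_mul, eval_mul, IsRoot.def.1 hx, IsRoot.def.1 hy, mul_zero, mul_zero,
        add_zero, eval_one] at this
      exact zero_ne_one this
    intro ξ _
    by_cases e : ξ = x
    · exact ⟨y, Or.inr hy, e ▸ hxy⟩
    · exact ⟨x, Or.inl hx, e⟩
  refine ⟨h2, da, db, dd, sb, sd, bd, tb, td, cop, dq, dr, n5, odd, fun ξ hξ => ?_,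
    fun ξ ξ' hξ hξ' hn => ?_, fun ξ η hξ hη => ?_⟩
  · obtain ⟨ξ', hξ', hn⟩ := other ξ hξ
    have hf := fullG_of (hgal ξ ξ' hξ hξ' hn) (hne ξ ξ' hξ hξ')
    refine ⟨⟨irr_of (hsep ξ hξ).1 ?_ hf, (hsep ξ hξ).2⟩, (hsep ξ hξ).1, hf⟩
    rw [(hsep ξ hξ).2]
    omega
  · refine ⟨1, 1, one_ne_zero, one_ne_zero, ?_⟩
    rw [C_1, one_mul, one_mul]
    apply pairG_of (hgal ξ ξ' hξ hξ' hn) (hne ξ ξ' hξ hξ') (hsep ξ' hξ').1
    rw [(hsep ξ' hξ').2]
    omega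
  · refine ⟨1, 1, one_ne_zero, one_ne_zero, ?_⟩
    rw [C_1, one_mul, one_mul]
    exact minG_of (hne ξ η (Or.inl hξ) (Or.inr hη)) (hmin ξ η hξ hη)

theorem gal_of_bc (h : BC n q r a b) {ξ ξ' : k} (hξ : b.IsRoot ξ ∨ (a ^ 2 - 4 * b).IsRoot ξ)
    (hξ' : b.IsRoot ξ' ∨ (a ^ 2 - 4 * b).IsRoot ξ') (hn : ξ ≠ ξ') :
    FullProduct (fm q r ξ) (fm q r ξ') := by
  obtain ⟨-, s1, f1⟩ := h.ff ξ hξ
  obtain ⟨-, s2, f2⟩ := h.ff ξ' hξ'
  obtain ⟨u, v, hu, hv, p1⟩ := h.pr ξ ξ' hξ hξ' hn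
  obtain ⟨u', v', hu', hv', p2⟩ := h.pr ξ' ξ hξ' hξ hn.symm
  exact fullProduct_of s1 s2 f1 f2 (pairG_unit hu' hv' s1.ne_zero p2)
    (pairG_unit hu hv s2.ne_zero p1)

theorem min_of_bc (h : BC n q r a b) {ξ η : k} (hξ : b.IsRoot ξ)
    (hη : (a ^ 2 - 4 * b).IsRoot η) (hco : IsCoprime (fm q r ξ) (fm q r η)) :
    NonsquareMinor (fm q r ξ) (fm q r η) := by
  obtain ⟨-, s1, f1⟩ := h.ff ξ (Or.inl hξ)
  obtain ⟨-, s2, f2⟩ := h.ff η (Or.inr hη)
  obtain ⟨u, v, hu, hv, p1⟩ := h.mn ξ η hξ hη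
  exact nonsquareMinor_of h.h2 s1 s2 hco (minG_unit hu hv p1)

end crit

end Pool.Agent.K9h16.GK
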