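import Pool.Agent.K9h16.GK.TwoC
import Pool.Agent.K9h16.PT.Pot

/-!
Three polynomials whose Galois group contains the product of the alternating groups.
-/

set_option autoImplicit false
set_option linter.all false

open Polynomial
open scoped Classical

namespace Pool.Agent.K9h16.GK

open Pool.Agent.K9h16.PT Pool.Agent.K9h16.QT Pool.Agent.X243.Gen Pool.Agent.X243.Tate
  Pool.Agent.X243.Sol

section fam

variable {k : Type} [Field k] {n : ℕ} {P : Fin n → k[X]}

theorem spl_fam (h0 : ∏ i, P i ≠ 0) (i : Fin n) :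
    ((P i).map (algebraMap k (∏ i, P i).SplittingField)).Splits := by
  have h1 := SplittingField.splits (∏ i, P i)
  refine h1.of_dvd (Polynomial.map_ne_zero h0) (Polynomial.map_dvd _ ?_)
  exact Finset.dvd_prod_of_mem P (Finset.mem_univ i)

theorem spl_prod {Ω : Type} [Field Ω] [Algebra k Ω]
    (hs : ∀ i, ((P i).map (algebraMap k Ω)).Splits) :
    ((∏ i, P i).map (algebraMap k Ω)).Splits := by
  rw [Polynomial.map_prod]
  exact Splits.prod fun i _ => hs i

theorem ne_fam (h0 : ∏ i, P i ≠ 0) (i : Fin n) : P i ≠ 0 := by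
  intro h
  exact h0 (Finset.prod_eq_zero (Finset.mem_univ i) h)

theorem acts_fam (h : ContainsAlternating P) (h0 : ∏ i, P i ≠ 0) {Ω : Type} [Field Ω]
    [Algebra k Ω] [Normal k Ω] (hs : ∀ i, ((P i).map (algebraMap k Ω)).Splits)
    (π : (i : Fin n) → Equiv.Perm ((P i).rootSet Ω)) (hπ : ∀ i, Equiv.Perm.sign (π i) = 1) :
    ∃ τ : Ω ≃ₐ[k] Ω, ∀ (i : Fin n) (j : (P i).rootSet Ω), τ (j : Ω) = (π i j : (P i).rootSet Ω) := by
  obtain ⟨_, _⟩ := exists_alg (spl_prod hs)
  have he : ∀ i, ∃ e : (P i).rootSet (∏ i, P i).SplittingField ≃ (P i).rootSet Ω,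
      ∀ j, ((e j : (P i).rootSet Ω) : Ω) =
        algebraMap (∏ i, P i).SplittingField Ω (j : (∏ i, P i).SplittingField) := fun i =>
    rs_equiv (Ω := Ω) (spl_fam h0 i) (ne_fam h0 i)
  choose e he using he
  obtain ⟨σ, hσ⟩ := h (fun i => ((e i).trans (π i)).trans (e i).symm) (fun i => by
    rw [Equiv.Perm.sign_trans_trans_symm]
    exact hπ i)
  obtain ⟨τ, hτ⟩ := up (Ω := Ω) σ
  refine ⟨τ, fun i j => ?_⟩
  obtain ⟨l, rfl⟩ := (e i).surjective j
  rw [he, hτ, hσ]
  rw [Equiv.trans_apply, Equiv.trans_apply, ← he, Equiv.apply_symm_apply]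

theorem acts_dt (h : ContainsAlternating P) (h0 : ∏ i, P i ≠ 0) {Ω : Type} [Field Ω]
    [Algebra k Ω] [Normal k Ω] (hs : ∀ i, ((P i).map (algebraMap k Ω)).Splits) (i : Fin n)
    {x y z w : (P i).rootSet Ω} (hxy : x ≠ y) (hzw : z ≠ w) :
    ∃ u : Ω ≃ₐ[k] Ω, (∀ j : (P i).rootSet Ω, u (j : Ω) = (dt x y z w j : (P i).rootSet Ω)) ∧
      ∀ l, l ≠ i → ∀ θ : Ω, aeval θ (P l) = 0 → u θ = θ := by
  obtain ⟨τ, hτ⟩ := acts_fam h h0 hs (Function.update (fun _ => 1) i (dt x y z w)) (fun l => by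
    by_cases hl : l = i
    · subst hl
      rw [Function.update_self, dt, Equiv.Perm.sign_mul]
      have e1 : Equiv.Perm.sign (Equiv.swap x y) = -1 := Equiv.Perm.sign_swap hxy
      have e2 : Equiv.Perm.sign (Equiv.swap z w) = -1 := Equiv.Perm.sign_swap hzw
      rw [swap_inst _ _ x y, swap_inst _ _ z w, e1, e2]
      rfl
    · rw [Function.update_of_ne hl]
      exact Equiv.Perm.sign_one)
  refine ⟨τ, fun j => ?_, fun l hl θ hθ => ?_⟩
  · have h3 := hτ i j
    rw [Function.update_self] at h3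
    exact h3
  · have h3 := hτ l ⟨θ, mem_rootSet.2 ⟨ne_fam h0 l, hθ⟩⟩
    rw [Function.update_of_ne hl] at h3
    exact h3

end fam

end Pool.Agent.K9h16.GK
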