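import Pool.Agent.K9h16.GK.Lvl

/-!
The converse for three polynomials.
-/

set_option autoImplicit false
set_option linter.all false

open Polynomial
open scoped Classical

namespace Pool.Agent.K9h16.GK

open Pool.Agent.K9h16.PT Pool.Agent.X243.Gen Pool.Agent.X243.Tate
  Pool.Agent.X243.Sol

section perm

variable {α : Type} [Fintype α] [DecidableEq α]

/-- A cycle of length three is a commutator of transpositions. -/
theorem three_comm {g : Equiv.Perm α} (hg : g.IsThreeCycle) :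
    ∃ u v w : α, u ≠ v ∧ v ≠ w ∧
      g = Equiv.swap u v * Equiv.swap v w * (Equiv.swap u v)⁻¹ * (Equiv.swap v w)⁻¹ := by
  have hi : (g⁻¹).IsThreeCycle := hg.inv
  obtain ⟨a, ha⟩ := hi.isCycle.nonempty_support
  have h1 := (hi.eq_swap_mul_swap_iff_mem_support).2 ha
  obtain ⟨u, hu⟩ : ∃ u, u = g⁻¹ a := ⟨_, rfl⟩
  obtain ⟨v, hv⟩ : ∃ v, v = g⁻¹ u := ⟨_, rfl⟩
  rw [← hu, ← hv] at h1
  have hau : a ≠ u := by
    intro h
    rw [Equiv.Perm.mem_support] at ha
    exact ha (by rw [← hu, ← h])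
  have huv : u ≠ v := by
    intro h
    refine hau ((g⁻¹).injective ?_)
    rw [← hu, ← hv]
    exact h
  refine ⟨a, u, v, hau, huv, ?_⟩
  have h3 : orderOf g = 3 := hg.orderOf
  have h4 : g ^ 3 = 1 := by rw [← h3]; exact pow_orderOf_eq_one g
  rw [Equiv.swap_inv, Equiv.swap_inv, mul_assoc (Equiv.swap a u * Equiv.swap u v), ← h1]
  have h5 : g * (g⁻¹ * g⁻¹) = g⁻¹ := by group
  calc g = g ^ 3 * (g⁻¹ * g⁻¹) := by group
    _ = g⁻¹ * g⁻¹ := by rw [h4, one_mul]

end perm

section conv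

variable {k : Type} [Field k] {P Q S : k[X]}

/-- The even permutations of the roots of `P`, with the roots of `Q` and `S` fixed. -/
theorem even_fix {E : Type} [Field E] [Algebra k E] [Normal k E] (sP : P.Separable)
    (sQ : Q.Separable) (sS : S.Separable) (hsP : (P.map (algebraMap k E)).Splits)
    (fP : FullG P) (h : PairG Q P) (h' : PairG S P)
    {Ω : Type} [Field Ω] [Algebra k Ω] [IsSepClosure k Ω] [Algebra E Ω] [IsScalarTower k E Ω]
    (π : Equiv.Perm (P.rootSet E)) (hπ : Equiv.Perm.sign π = 1) :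
    ∃ σ : E ≃ₐ[k] E, (∀ i : P.rootSet E, σ (i : E) = (π i : P.rootSet E)) ∧
      (∀ θ : E, aeval θ Q = 0 → σ θ = θ) ∧ ∀ θ : E, aeval θ S = 0 → σ θ = θ := by
  haveI : IsSepClosed Ω := IsSepClosure.sep_closed k
  obtain ⟨e, he⟩ := rs_equiv (Ω := Ω) hsP sP.ne_zero
  have hmem : π ∈ Subgroup.closure {σ : Equiv.Perm (P.rootSet E) | σ.IsThreeCycle} := by
    rw [Equiv.Perm.closure_three_cycles_eq_alternating, Equiv.Perm.mem_alternatingGroup]
    exact hπ
  clear hπ
  induction hmem using Subgroup.closure_induction with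
  | mem g hg =>
    obtain ⟨u, v, w, huv, hvw, hgg⟩ := three_comm hg
    obtain ⟨s, s1, s2⟩ := all_swaps (Ω := Ω) sQ sP fP h (x := e u) (y := e v)
      (fun h => huv (e.injective h))
    obtain ⟨t, t1, t2⟩ := all_swaps (Ω := Ω) sS sP fP h' (x := e v) (y := e w)
      (fun h => hvw (e.injective h))
    obtain ⟨τ, hτ⟩ : ∃ τ, τ = s * t * s⁻¹ * t⁻¹ := ⟨_, rfl⟩
    have hact : Acts τ (sw (e u) (e v) * sw (e v) (e w) * (sw (e u) (e v))⁻¹ *
        (sw (e v) (e w))⁻¹) := by
      rw [hτ]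
      exact ((s2.mul t2).mul s2.inv).mul t2.inv
    have hQ : ∀ θ : Ω, aeval θ Q = 0 → τ θ = θ := by
      intro θ hθ
      rw [hτ]
      show s (t (s⁻¹ (t⁻¹ θ))) = θ
      rw [fix_inv (s1 _ (root_map t⁻¹ hθ))]
      have : t (t⁻¹ θ) = θ := t.apply_symm_apply θ
      rw [this, s1 θ hθ]
    have hS : ∀ θ : Ω, aeval θ S = 0 → τ θ = θ := by
      intro θ hθ
      rw [hτ]
      show s (t (s⁻¹ (t⁻¹ θ))) = θ
      rw [fix_inv (t1 θ hθ), t1 _ (root_map s⁻¹ hθ)]
      exact s.apply_symm_apply θ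
    obtain ⟨ρ, hρ⟩ := down (E := E) τ
    have hes : ∀ (x y i : P.rootSet E), sw (e x) (e y) (e i) = e (sw x y i) := by
      intro x y i
      rw [← sw_equiv, Equiv.symm_apply_apply]
    refine ⟨ρ, fun i => ?_, fun θ hθ => ?_, fun θ hθ => ?_⟩
    · apply (algebraMap E Ω).injective
      have h3 := hact (e i)
      have h4 : (sw (e u) (e v) * sw (e v) (e w) * (sw (e u) (e v))⁻¹ *
        (sw (e v) (e w))⁻¹) (e i) = e (g i) := by
        rw [sw_inv, sw_inv]
        show sw (e u) (e v) (sw (e v) (e w) (sw (e u) (e v) (sw (e v) (e w) (e i)))) = _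
        rw [hes, hes, hes, hes]
        congr 1
        rw [hgg, Equiv.swap_inv, Equiv.swap_inv, ← sw_eq, ← sw_eq]
        rfl
      rw [hρ, ← he, h3, h4, he]
    · apply (algebraMap E Ω).injective
      rw [hρ]
      apply hQ
      rw [aeval_algebraMap_apply, hθ, map_zero]
    · apply (algebraMap E Ω).injective
      rw [hρ]
      apply hS
      rw [aeval_algebraMap_apply, hθ, map_zero]
  | one => exact ⟨1, fun i => rfl, fun θ _ => rfl, fun θ _ => rfl⟩
  | mul g g' _ _ ih ih' =>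
    obtain ⟨σ, s1, s2, s3⟩ := ih
    obtain ⟨τ, t1, t2, t3⟩ := ih'
    refine ⟨σ * τ, fun i => ?_, fun θ hθ => ?_, fun θ hθ => ?_⟩
    · show σ (τ i) = _
      rw [t1, s1]
      rfl
    · show σ (τ θ) = θ
      rw [t2 θ hθ, s2 θ hθ]
    · show σ (τ θ) = θ
      rw [t3 θ hθ, s3 θ hθ]
  | inv g _ ih =>
    obtain ⟨σ, s1, s2, s3⟩ := ih
    refine ⟨σ⁻¹, fun i => ?_, fun θ hθ => ?_, fun θ hθ => ?_⟩
    · have h1 := s1 (g⁻¹ i)
      have h2 : g (g⁻¹ i) = i := g.apply_symm_apply i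
      rw [h2] at h1
      rw [← h1]
      exact σ.symm_apply_apply _
    · have h1 : σ⁻¹ (σ θ) = θ := σ.symm_apply_apply θ
      rw [s2 θ hθ] at h1
      exact h1
    · have h1 : σ⁻¹ (σ θ) = θ := σ.symm_apply_apply θ
      rw [s3 θ hθ] at h1
      exact h1

theorem alt_of {a b : k[X]} (sa : a.Separable) (sb : b.Separable) (sd : (a - b).Separable)
    (fa : FullG a) (fb : FullG b) (fd : FullG (a - b)) (h : Six a b) :
    ContainsAlternating ![a, b, a - b] := by
  have h0 : ∏ i, (![a, b, a - b] : Fin 3 → k[X]) i ≠ 0 := by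
    rw [Finset.prod_ne_zero_iff]
    intro i _
    fin_cases i
    · exact sa.ne_zero
    · exact sb.ne_zero
    · exact sd.ne_zero
  have hspl : ∀ i : Fin 3, (((![a, b, a - b] : Fin 3 → k[X]) i).map
      (algebraMap k (SeparableClosure k))).Splits := by
    intro i
    fin_cases i
    · exact IsSepClosed.splits_of_separable _ sa.map
    · exact IsSepClosed.splits_of_separable _ sb.map
    · exact IsSepClosed.splits_of_separable _ sd.map
  obtain ⟨_, _⟩ := exists_alg (spl_prod hspl)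
  intro π hπ
  obtain ⟨σ0, s1, s2, s3⟩ := even_fix (Ω := SeparableClosure k) sa sb sd (spl_fam h0 0) fa h.ba h.da
    (π 0) (hπ 0)
  obtain ⟨σ1, t1, t2, t3⟩ := even_fix (Ω := SeparableClosure k) sb sa sd (spl_fam h0 1) fb h.ab h.db
    (π 1) (hπ 1)
  obtain ⟨σ2, u1, u2, u3⟩ := even_fix (Ω := SeparableClosure k) sd sa sb (spl_fam h0 2) fd h.ad h.bd
    (π 2) (hπ 2)
  refine ⟨σ0 * σ1 * σ2, fun i => ?_⟩
  fin_cases i
  · intro θ
    show σ0 (σ1 (σ2 θ)) = _
    have h1 := aeval_eq_zero_of_mem_rootSet θ.2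
    rw [u2 _ h1, t2 _ h1]
    exact s1 θ
  · intro θ
    show σ0 (σ1 (σ2 θ)) = _
    have h1 := aeval_eq_zero_of_mem_rootSet θ.2
    rw [u3 _ h1]
    have h3 := t1 θ
    rw [h3]
    exact s2 _ (aeval_eq_zero_of_mem_rootSet (π 1 θ).2)
  · intro θ
    obtain ⟨y, hy⟩ : ∃ y : (∏ i, (![a, b, a - b] : Fin 3 → k[X]) i).SplittingField,
      y = (π 2 θ : (∏ i, (![a, b, a - b] : Fin 3 → k[X]) i).SplittingField) := ⟨_, rfl⟩
    have hy0 : aeval y (a - b) = 0 := by
      rw [hy]
      exact aeval_eq_zero_of_mem_rootSet (π 2 θ).2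
    have h3 : σ2 θ = y := by
      rw [hy]
      exact u1 θ
    show σ0 (σ1 (σ2 θ)) = (π 2 θ : (∏ i, (![a, b, a - b] : Fin 3 → k[X]) i).SplittingField)
    rw [h3, t3 y hy0, ← hy]
    exact s3 y hy0

theorem eq_one' {a : k[X]} {Ω : Type} [Field Ω] [Algebra k Ω] [Algebra a.SplittingField Ω]
    [IsScalarTower k a.SplittingField Ω] (s : Ω ≃ₐ[k] Ω)
    (h1 : ∀ θ : Ω, aeval θ a = 0 → s θ = θ) (x : a.SplittingField) :
    s (algebraMap _ Ω x) = algebraMap _ Ω x := by
  have h3 : ((s : Ω →ₐ[k] Ω).comp (IsScalarTower.toAlgHom k a.SplittingField Ω)) =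
      IsScalarTower.toAlgHom k a.SplittingField Ω := by
    apply AlgHom.ext_of_adjoin_eq_top (SplittingField.adjoin_rootSet a)
    intro y hy
    have h4 := aeval_eq_zero_of_mem_rootSet hy
    exact h1 _ (by
      show aeval (algebraMap a.SplittingField Ω y) a = 0
      rw [aeval_algebraMap_apply, h4, map_zero])
  exact congrArg (fun g : a.SplittingField →ₐ[k] Ω => g x) h3

theorem val_of (h2 : (2 : k) ≠ 0) {a b : k[X]} (sa : a.Separable) (hco : IsCoprime a b)
    (hs : SgnG a b) : NonsquareValues a b := by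
  have h2' : (2 : SeparableClosure k) ≠ 0 := by
    rw [← map_ofNat (algebraMap k (SeparableClosure k)) 2]
    exact (map_ne_zero_iff _ (algebraMap k (SeparableClosure k)).injective).2 h2
  obtain ⟨s, θ₁, θ₂, r1, r2, hfix, g1, g2⟩ := sgn_acts (Ω := SeparableClosure k) h2' sa hs
  have hspl : (a.map (algebraMap k (SeparableClosure k))).Splits :=
    IsSepClosed.splits_of_separable _ sa.map
  obtain ⟨_, _⟩ := exists_alg hspl
  obtain ⟨x, hx⟩ := root_up (E := a.SplittingField) (SplittingField.splits a) sa.ne_zero r1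
  obtain ⟨y, hy⟩ := root_up (E := a.SplittingField) (SplittingField.splits a) sa.ne_zero r2
  refine ⟨x, y, aeval_eq_zero_of_mem_rootSet x.2, aeval_eq_zero_of_mem_rootSet y.2, ?_⟩
  rintro ⟨r, hr⟩
  have hev : ∀ z : a.SplittingField, aeval (algebraMap a.SplittingField (SeparableClosure k) z) b =
      algebraMap a.SplittingField (SeparableClosure k) (aeval z b) := fun z =>
    aeval_algebraMap_apply _ z b
  have hfixE := eq_one' (a := a) s hfix
  have n1 : aeval θ₁ b ≠ 0 := fun h => cop_ne hco r1 h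
  have n2 : aeval θ₂ b ≠ 0 := fun h => cop_ne hco r2 h
  have h5 := sg_mul (w := s) h2' n1 n2 (by rw [← hx, hev, hfixE]) (by rw [← hy, hev, hfixE])
  rw [g1, g2, zero_add] at h5
  have h6 : aeval θ₁ b * aeval θ₂ b = (algebraMap a.SplittingField (SeparableClosure k) r) ^ 2 := by
    rw [← hx, ← hy, hev, hev, ← map_mul, hr, pow_two, map_mul]
  rw [h6, sg_sq h2' ?_ (hfixE r)] at h5
  · exact zero_ne_one h5
  · intro h
    rw [h, zero_pow two_ne_zero] at h6
    exact mul_ne_zero n1 n2 h6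

end conv

end Pool.Agent.K9h16.GK
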