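import Pool.Agent.K9h16.GK.Def
import Pool.Agent.K9h16.GK.Ext
import Pool.Agent.K9h16.QT.FinT

/-!
Two polynomials with independent full Galois groups, and nonsquare minors.
-/

set_option autoImplicit false
set_option linter.all false

open Polynomial
open scoped Classical

namespace Pool.Agent.K9h16.GK

open Pool.Agent.K9h16.PT Pool.Agent.K9h16.QT Pool.Agent.X243.Gen Pool.Agent.X243.Tate
  Pool.Agent.X243.Sol

section one

variable {k : Type} [Field k] {P Q : k[X]}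

theorem acts_of (h : FullProduct P Q) (h0 : P * Q ≠ 0) {Ω : Type} [Field Ω] [Algebra k Ω]
    [Normal k Ω] (sP : (P.map (algebraMap k Ω)).Splits) (sQ : (Q.map (algebraMap k Ω)).Splits)
    (π : Equiv.Perm (P.rootSet Ω)) (π' : Equiv.Perm (Q.rootSet Ω)) :
    ∃ τ : Ω ≃ₐ[k] Ω, (∀ i : P.rootSet Ω, τ (i : Ω) = (π i : P.rootSet Ω)) ∧
      ∀ i : Q.rootSet Ω, τ (i : Ω) = (π' i : Q.rootSet Ω) := by
  obtain ⟨_, _⟩ := exists_alg (spl_of sP sQ)
  obtain ⟨e, he⟩ := rs_equiv (Ω := Ω) (spl_left h0) (left_ne_zero_of_mul h0)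
  obtain ⟨e', he'⟩ := rs_equiv (Ω := Ω) (spl_right h0) (right_ne_zero_of_mul h0)
  obtain ⟨σ, h1, h3⟩ := h ((e.trans π).trans e.symm) ((e'.trans π').trans e'.symm)
  obtain ⟨τ, hτ⟩ := up (Ω := Ω) σ
  refine ⟨τ, fun i => ?_, fun i => ?_⟩
  · obtain ⟨j, rfl⟩ := e.surjective i
    rw [he, hτ, h1]
    rw [Equiv.trans_apply, Equiv.trans_apply, ← he, Equiv.apply_symm_apply]
  · obtain ⟨j, rfl⟩ := e'.surjective i
    rw [he', hτ, h3]
    rw [Equiv.trans_apply, Equiv.trans_apply, ← he', Equiv.apply_symm_apply]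

theorem fullProduct_symm (h : FullProduct P Q) (h0 : P * Q ≠ 0) : FullProduct Q P := by
  have h0' : Q * P ≠ 0 := by rwa [mul_comm]
  intro π π'
  obtain ⟨τ, h1, h3⟩ := acts_of h h0 (Ω := (Q * P).SplittingField) (spl_right h0') (spl_left h0')
    π' π
  exact ⟨τ, h3, h1⟩

theorem fullG_of (h : FullProduct P Q) (h0 : P * Q ≠ 0) : FullG P := by
  intro E _ _ _ _ hs π
  have hP := left_ne_zero_of_mul h0
  haveI : Algebra.IsAlgebraic k (AlgebraicClosure E) := Algebra.IsAlgebraic.trans k E _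
  haveI : IsAlgClosure k (AlgebraicClosure E) := ⟨inferInstance, inferInstance⟩
  haveI : Normal k (AlgebraicClosure E) := IsAlgClosure.normal k _
  obtain ⟨e, he⟩ := rs_equiv (Ω := AlgebraicClosure E) hs hP
  obtain ⟨τ, h1, -⟩ := acts_of h h0 (Ω := AlgebraicClosure E)
    (IsAlgClosed.splits _) (IsAlgClosed.splits _) ((e.symm.trans π).trans e) 1
  obtain ⟨σ, hσ⟩ := down (E := E) τ
  refine ⟨σ, Equiv.ext fun i => Subtype.ext ?_⟩
  apply (algebraMap E (AlgebraicClosure E)).injective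
  have h3 : ((MulAction.toPermHom (E ≃ₐ[k] E) (P.rootSet E) σ i : P.rootSet E) : E) =
      σ (i : E) := rfl
  rw [h3, hσ, ← he i, h1, Equiv.trans_apply, Equiv.trans_apply, Equiv.symm_apply_apply, he]

/-- Automorphisms which exchange two roots of `Q` and fix the roots of `P`. -/
theorem pairG_of (h : FullProduct P Q) (h0 : P * Q ≠ 0) (sQ : Q.Separable)
    (h2 : 2 ≤ Q.natDegree) : PairG P Q := by
  intro E _ _ _ _ hsP hsQ
  have hP := left_ne_zero_of_mul h0
  have hc : 1 < Fintype.card (Q.rootSet E) := by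
    rw [card_rootSet_eq_natDegree sQ hsQ]
    omega
  obtain ⟨x, y, hxy⟩ := Fintype.exists_pair_of_one_lt_card hc
  haveI : Normal k E := IsGalois.to_normal
  obtain ⟨τ, h1, h3⟩ := acts_of h h0 (Ω := E) hsP hsQ 1 (sw x y)
  refine ⟨τ, fun θ hθ => h1 ⟨θ, mem_rootSet.2 ⟨hP, hθ⟩⟩, x, y, hxy, ?_⟩
  rw [← sw_eq]
  exact Equiv.ext fun i => Subtype.ext (h3 i)

theorem minG_of (h0 : P * Q ≠ 0) (hm : NonsquareMinor P Q) : MinG P Q := by
  intro E _ _ _ _ hsP hsQ
  obtain ⟨_, _⟩ := exists_alg (spl_of hsP hsQ)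
  obtain ⟨θ, θ', η, η', r1, r2, r3, r4, hns⟩ := hm
  obtain ⟨M, hM⟩ : ∃ M : (P * Q).SplittingField,
    M = (θ - η) * (θ' - η) * ((θ - η') * (θ' - η')) := ⟨_, rfl⟩
  rw [← hM] at hns
  have hM0 : M ≠ 0 := fun h => hns ⟨0, by rw [h, mul_zero]⟩
  have hMM : algebraMap (P * Q).SplittingField E M =
      (algebraMap _ E θ - algebraMap _ E η) * (algebraMap _ E θ' - algebraMap _ E η) *
      ((algebraMap _ E θ - algebraMap _ E η') * (algebraMap _ E θ' - algebraMap _ E η')) := by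
    rw [hM]
    simp only [map_mul, map_sub]
  have hrt : ∀ (F : k[X]) (x : (P * Q).SplittingField), aeval x F = 0 →
      aeval (algebraMap _ E x) F = 0 := by
    intro F x hx
    rw [aeval_algebraMap_apply, hx, map_zero]
  have hfixP : ∀ (τ : E ≃ₐ[(P * Q).SplittingField] E) (x : E), aeval x P = 0 → τ x = x := by
    intro τ x hx
    obtain ⟨z, rfl⟩ := root_up (Ω := E) (spl_left h0) (left_ne_zero_of_mul h0) hx
    exact τ.commutes _
  have hfixQ : ∀ (τ : E ≃ₐ[(P * Q).SplittingField] E) (x : E), aeval x Q = 0 → τ x = x := by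
    intro τ x hx
    obtain ⟨z, rfl⟩ := root_up (Ω := E) (spl_right h0) (right_ne_zero_of_mul h0) hx
    exact τ.commutes _
  haveI : IsGalois (P * Q).SplittingField E := IsGalois.tower_top_of_isGalois k _ E
  haveI : Normal (P * Q).SplittingField E := IsGalois.to_normal
  by_cases hex : ∃ r : E, r ^ 2 = algebraMap _ E M
  · obtain ⟨r, hr⟩ := hex
    obtain ⟨τ, hτ⟩ := exists_neg hns hr
    refine ⟨τ.restrictScalars k, hfixP τ, hfixQ τ, _, _, _, _, hrt _ _ r1, hrt _ _ r2, hrt _ _ r3,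
      hrt _ _ r4, fun x hx => ?_⟩
    rw [← hMM] at hx
    constructor
    · have h5 : x ^ 2 = r ^ 2 := by rw [hx, hr]
      rcases sq_eq_sq_iff_eq_or_eq_neg.1 h5 with rfl | rfl
      · exact hτ
      · show τ (-r) = - -r
        rw [map_neg, hτ]
    · rintro rfl
      rw [zero_pow two_ne_zero] at hx
      exact hM0 ((_root_.map_eq_zero _).1 hx.symm)
  · refine ⟨1, fun θ _ => rfl, fun θ _ => rfl, _, _, _, _, hrt _ _ r1, hrt _ _ r2, hrt _ _ r3,
      hrt _ _ r4, fun x hx => ?_⟩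
    rw [← hMM] at hx
    exact absurd ⟨x, hx⟩ hex

/-- `P` and `Q` are coprime. -/
theorem coprime_of (h : FullProduct P Q) (h0 : P * Q ≠ 0) (sP : P.Separable)
    (h2 : 2 ≤ P.natDegree) : IsCoprime P Q := by
  by_contra hcon
  have h1 : ∃ x : (P * Q).SplittingField, aeval x P = 0 ∧ aeval x Q = 0 := by
    obtain ⟨g, hg⟩ : ∃ g, g = EuclideanDomain.gcd P Q := ⟨_, rfl⟩
    have hu : ¬ IsUnit g := by
      rw [hg, EuclideanDomain.gcd_isUnit_iff]
      exact hcon
    have hgP : g ∣ P := by rw [hg]; exact EuclideanDomain.gcd_dvd_left P Q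
    have hgQ : g ∣ Q := by rw [hg]; exact EuclideanDomain.gcd_dvd_right P Q
    have hP0 := left_ne_zero_of_mul h0
    have hg0 : g ≠ 0 := ne_zero_of_dvd_ne_zero hP0 hgP
    have hs : (g.map (algebraMap k (P * Q).SplittingField)).Splits :=
      (spl_left h0).of_dvd (Polynomial.map_ne_zero hP0) (Polynomial.map_dvd _ hgP)
    have hd : (g.map (algebraMap k (P * Q).SplittingField)).degree ≠ 0 := by
      rw [degree_map]
      intro h
      exact hu (isUnit_iff_degree_eq_zero.2 h)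
    obtain ⟨x, hx⟩ := hs.exists_eval_eq_zero hd
    rw [eval_map_algebraMap] at hx
    have key : ∀ F : k[X], g ∣ F → aeval x F = 0 := by
      rintro _ ⟨c, rfl⟩
      rw [map_mul, hx, zero_mul]
    exact ⟨x, key P hgP, key Q hgQ⟩
  obtain ⟨x, x1, x2⟩ := h1
  have hc : 1 < Fintype.card (P.rootSet (P * Q).SplittingField) := by
    rw [card_rootSet_eq_natDegree sP (spl_left h0)]
    omega
  obtain ⟨z, hz⟩ : ∃ z : P.rootSet (P * Q).SplittingField, (z : (P * Q).SplittingField) = x :=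
    ⟨⟨x, mem_rootSet.2 ⟨left_ne_zero_of_mul h0, x1⟩⟩, rfl⟩
  obtain ⟨w, hw⟩ := Fintype.exists_ne_of_one_lt_card hc z
  obtain ⟨σ, h3, h4⟩ := h (sw z w) 1
  have h5 := h3 z
  have h6 := h4 ⟨x, mem_rootSet.2 ⟨right_ne_zero_of_mul h0, x2⟩⟩
  rw [sw_apply, if_pos rfl, hz] at h5
  have h7 : (w : (P * Q).SplittingField) = x := h5.symm.trans h6
  exact hw (Subtype.ext (h7.trans hz.symm))

end one

end Pool.Agent.K9h16.GK
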