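import Pool.Agent.K9h16.GK.Two

/-!
The converse: from transpositions to the full product.
-/

set_option autoImplicit false
set_option linter.all false

open Polynomial
open scoped Classical

namespace Pool.Agent.K9h16.GK

open Pool.Agent.K9h16.PT Pool.Agent.K9h16.QT Pool.Agent.X243.Gen Pool.Agent.X243.Tate
  Pool.Agent.X243.Sol

section conv

variable {k : Type} [Field k] {P Q : k[X]}

/-- All the permutations of the roots of `P`, with the roots of `Q` fixed. -/
theorem perm_fix {E : Type} [Field E] [Algebra k E] [Normal k E] (sP : P.Separable)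
    (sQ : Q.Separable) (hsP : (P.map (algebraMap k E)).Splits) (fP : FullG P) (h : PairG Q P)
    {Ω : Type} [Field Ω] [Algebra k Ω] [IsSepClosure k Ω] [Algebra E Ω] [IsScalarTower k E Ω]
    (π : Equiv.Perm (P.rootSet E)) :
    ∃ σ : E ≃ₐ[k] E, (∀ i : P.rootSet E, σ (i : E) = (π i : P.rootSet E)) ∧
      ∀ θ : E, aeval θ Q = 0 → σ θ = θ := by
  obtain ⟨e, he⟩ := rs_equiv (Ω := Ω) hsP sP.ne_zero
  induction π using Equiv.Perm.swap_induction_on with
  | one => exact ⟨1, fun i => rfl, fun θ _ => rfl⟩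
  | swap_mul f x y hxy ih =>
    obtain ⟨σ, s1, s2⟩ := ih
    obtain ⟨τ, t1, t2⟩ := all_swaps (Ω := Ω) sQ sP fP h (x := e x) (y := e y)
      (fun h => hxy (e.injective h))
    obtain ⟨ρ, hρ⟩ := down (E := E) τ
    refine ⟨ρ * σ, fun i => ?_, fun θ hθ => ?_⟩
    · show ρ (σ i) = _
      rw [s1]
      apply (algebraMap E Ω).injective
      have h3 := t2 (e (f i))
      rw [he] at h3
      have h5 : sw (e x) (e y) (e (f i)) = e ((Equiv.swap x y * f) i) := by
        rw [Equiv.Perm.mul_apply, ← sw_eq, ← sw_equiv, Equiv.symm_apply_apply]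
      rw [hρ, h3, ← he, h5]
    · show ρ (σ θ) = θ
      rw [s2 θ hθ]
      apply (algebraMap E Ω).injective
      rw [hρ]
      apply t1
      rw [aeval_algebraMap_apply, hθ, map_zero]

theorem fullProduct_of (sP : P.Separable) (sQ : Q.Separable) (fP : FullG P) (fQ : FullG Q)
    (h : PairG Q P) (h' : PairG P Q) : FullProduct P Q := by
  have h0 : P * Q ≠ 0 := mul_ne_zero sP.ne_zero sQ.ne_zero
  have sPΩ : (P.map (algebraMap k (SeparableClosure k))).Splits :=
    IsSepClosed.splits_of_separable _ sP.map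
  have sQΩ : (Q.map (algebraMap k (SeparableClosure k))).Splits :=
    IsSepClosed.splits_of_separable _ sQ.map
  obtain ⟨_, _⟩ := exists_alg (spl_of sPΩ sQΩ)
  intro π π'
  obtain ⟨σ, s1, s2⟩ := perm_fix (E := (P * Q).SplittingField) (Ω := SeparableClosure k) sP sQ
    (spl_left h0) fP h π
  obtain ⟨τ, t1, t2⟩ := perm_fix (E := (P * Q).SplittingField) (Ω := SeparableClosure k) sQ sP
    (spl_right h0) fQ h' π'
  refine ⟨σ * τ, fun i => ?_, fun i => ?_⟩
  · show σ (τ i) = _
    rw [t2 _ (aeval_eq_zero_of_mem_rootSet i.2), s1]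
  · show σ (τ i) = _
    rw [t1, s2 _ (aeval_eq_zero_of_mem_rootSet (π' i).2)]

/-- An automorphism of the splitting field which fixes the roots. -/
theorem eq_one (h0 : P * Q ≠ 0) (σ : (P * Q).SplittingField ≃ₐ[k] (P * Q).SplittingField)
    (h1 : ∀ θ, aeval θ P = 0 → σ θ = θ) (h2 : ∀ θ, aeval θ Q = 0 → σ θ = θ) (x) : σ x = x := by
  have h3 : (σ : (P * Q).SplittingField →ₐ[k] (P * Q).SplittingField) = AlgHom.id k _ := by
    apply AlgHom.ext_of_adjoin_eq_top (SplittingField.adjoin_rootSet (P * Q))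
    intro y hy
    have h4 := aeval_eq_zero_of_mem_rootSet hy
    rw [map_mul, mul_eq_zero] at h4
    rcases h4 with h4 | h4
    · exact h1 y h4
    · exact h2 y h4
  exact congrArg (fun g : (P * Q).SplittingField →ₐ[k] (P * Q).SplittingField => g x) h3

theorem nonsquareMinor_of (h2 : (2 : k) ≠ 0) (sP : P.Separable) (sQ : Q.Separable)
    (hco : IsCoprime P Q) (h : MinG P Q) : NonsquareMinor P Q := by
  have h0 : P * Q ≠ 0 := mul_ne_zero sP.ne_zero sQ.ne_zero
  haveI : IsGalois k (P * Q).SplittingField := gal_split (sep_mul sP sQ hco)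
  obtain ⟨σ, s1, s2, θ, θ', η, η', r1, r2, r3, r4, h3⟩ := h (P * Q).SplittingField (spl_left h0)
    (spl_right h0)
  refine ⟨θ, θ', η, η', r1, r2, r3, r4, ?_⟩
  rintro ⟨r, hr⟩
  obtain ⟨h4, h5⟩ := h3 r (by rw [hr, pow_two])
  rw [eq_one h0 σ s1 s2] at h4
  have h6 : (2 : (P * Q).SplittingField) * r = 0 := by
    rw [two_mul]
    nth_rewrite 2 [h4]
    rw [add_neg_cancel]
  rcases mul_eq_zero.1 h6 with h7 | h7
  · apply h2
    apply (algebraMap k (P * Q).SplittingField).injective
    rw [map_ofNat, h7, map_zero]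
  · exact h5 h7

end conv

end Pool.Agent.K9h16.GK
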